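import Pool.Agent.H.MP_602efc_co.C3.Cen3
import Pool.Agent.H.MP_602efc_co.C3.Up3
import Pool.Agent.H.MP_602efc_co.As.Lo

/-!
# Bipartite coverings of complete graphs: the exact value of `n(d-3, d)` for every even `d ≥ 6`
-/

open Finset CodimTwo CodimThree

namespace Pool.Agent.Results.MP_602efc_co.CodimThree

/-- `H i` is the complete bipartite subgraph of `K_n` with colour classes `A i` and `B i`
(disjoint, possibly empty). The family `H 0, …, H (d-1)` is a bipartite covering of order `k` and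
size `d` of `K_n` if every edge `uv` of `K_n` lies in at least one and at most `k` of the `H i`. -/
structure IsBipartiteCovering (k d n : ℕ) (A B : Fin d → Finset (Fin n)) : Prop where
  disjoint : ∀ i : Fin d, Disjoint (A i) (B i)
  mult : ∀ u v : Fin n, u ≠ v →
    1 ≤ #(univ.filter (fun i : Fin d => (u ∈ A i ∧ v ∈ B i) ∨ (v ∈ A i ∧ u ∈ B i))) ∧
    #(univ.filter (fun i : Fin d => (u ∈ A i ∧ v ∈ B i) ∨ (v ∈ A i ∧ u ∈ B i))) ≤ k

/-- `K_n` has a bipartite covering of order `k` and size `d`. -/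
def HasBipartiteCovering (k d n : ℕ) : Prop :=
  ∃ A B : Fin d → Finset (Fin n), IsBipartiteCovering k d n A B

lemma covering_to_words {k d N : ℕ} (h : HasBipartiteCovering k d N) :
    ∃ W : Finset (Finset (Fin d) × Finset (Fin d)), #W = N ∧ (∀ w ∈ W, Disjoint w.1 w.2) ∧
      (∀ u ∈ W, ∀ v ∈ W, u ≠ v → 1 ≤ wdist u v) ∧
      (∀ u ∈ W, ∀ v ∈ W, u ≠ v → wdist u v ≤ k) := by
  obtain ⟨A, B, h⟩ := h
  set w : Fin N → Finset (Fin d) × Finset (Fin d) :=
    fun v => (univ.filter (fun i => v ∈ B i), univ.filter (fun i => v ∈ A i)) with hw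
  have hdist : ∀ u v : Fin N, wdist (w u) (w v)
      = #(univ.filter (fun i : Fin d => (u ∈ A i ∧ v ∈ B i) ∨ (v ∈ A i ∧ u ∈ B i))) := by
    intro u v
    unfold wdist
    rw [← card_union_of_disjoint]
    · congr 1
      ext i
      simp only [hw, mem_union, mem_inter, mem_filter, mem_univ, true_and]
      constructor
      · rintro (⟨h1, h2⟩ | ⟨h1, h2⟩)
        · exact Or.inr ⟨h2, h1⟩
        · exact Or.inl ⟨h1, h2⟩
      · rintro (⟨h1, h2⟩ | ⟨h1, h2⟩)
        · exact Or.inr ⟨h1, h2⟩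
        · exact Or.inl ⟨h2, h1⟩
    · rw [disjoint_left]
      intro i h1 h2
      simp only [hw, mem_inter, mem_filter, mem_univ, true_and] at h1 h2
      exact (disjoint_left.mp (h.disjoint i)) h2.1 h1.1
  have hself : ∀ u : Fin N, wdist (w u) (w u) = 0 := by
    intro u
    rw [hdist, card_eq_zero, filter_eq_empty_iff]
    intro i _ hi
    rcases hi with hi | hi
    · exact (disjoint_left.mp (h.disjoint i)) hi.1 hi.2
    · exact (disjoint_left.mp (h.disjoint i)) hi.1 hi.2
  have hinj : Function.Injective w := by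
    intro u v huv
    by_contra hne
    have h1 := (h.mult u v hne).1
    rw [← hdist, ← huv, hself] at h1
    omega
  refine ⟨univ.image w, ?_, ?_, ?_, ?_⟩
  · rw [card_image_of_injective _ hinj, card_univ, Fintype.card_fin]
  · intro x hx
    obtain ⟨u, _, rfl⟩ := mem_image.mp hx
    rw [disjoint_left]
    intro i h1 h2
    simp only [hw, mem_filter, mem_univ, true_and] at h1 h2
    exact (disjoint_left.mp (h.disjoint i)) h2 h1
  · intro x hx y hy hxy
    obtain ⟨u, _, rfl⟩ := mem_image.mp hx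
    obtain ⟨v, _, rfl⟩ := mem_image.mp hy
    rw [hdist]
    exact (h.mult u v (fun h => hxy (by rw [h]))).1
  · intro x hx y hy hxy
    obtain ⟨u, _, rfl⟩ := mem_image.mp hx
    obtain ⟨v, _, rfl⟩ := mem_image.mp hy
    rw [hdist]
    exact (h.mult u v (fun h => hxy (by rw [h]))).2

lemma fullwords_diam {d : ℕ} (W : Finset (Finset (Fin d) × Finset (Fin d)))
    (hdisj : ∀ w ∈ W, Disjoint w.1 w.2) (k : ℕ)
    (h2 : ∀ u ∈ W, ∀ v ∈ W, u ≠ v → wdist u v ≤ k) :
    ∀ x ∈ (W.filter (fun w => #w.1 + #w.2 = d)).image Prod.snd,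
    ∀ y ∈ (W.filter (fun w => #w.1 + #w.2 = d)).image Prod.snd, hd x y ≤ k := by
  intro x hx y hy
  obtain ⟨u, hu, rfl⟩ := mem_image.mp hx
  obtain ⟨v, hv, rfl⟩ := mem_image.mp hy
  rw [mem_filter] at hu hv
  have full : ∀ w ∈ W, #w.1 + #w.2 = d → w.1 = w.2ᶜ := by
    intro w hw hc
    have h3 := hdisj w hw
    apply eq_of_subset_of_card_le
    · intro a ha
      rw [mem_compl]
      exact (disjoint_left.mp h3) ha
    · rw [card_compl, Fintype.card_fin]; omega
  by_cases huv : u = v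
  · rw [huv, hd_self]; omega
  · have h3 := h2 u hu.1 v hv.1 huv
    unfold wdist at h3
    rw [full u hu.1 hu.2, full v hv.1 hv.2] at h3
    have e1 : u.2ᶜ ∩ v.2 = v.2 \ u.2 := by
      ext a; simp only [mem_inter, mem_compl, mem_sdiff]; tauto
    have e2 : u.2 ∩ v.2ᶜ = u.2 \ v.2 := by
      ext a; simp only [mem_inter, mem_compl, mem_sdiff]
    rw [e1, e2] at h3
    unfold hd
    omega

lemma hasW_to_covering {k d n : ℕ} (h : CovAs.HasW k d n) : HasBipartiteCovering k d n := by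
  obtain ⟨f, hf⟩ := h
  have hd : ∀ i : Fin d, Disjoint (univ.filter fun u : Fin n => f u i = some true)
      (univ.filter fun u : Fin n => f u i = some false) := by
    intro i
    rw [disjoint_left]
    intro u h1 h2
    rw [mem_filter] at h1 h2
    rw [h1.2] at h2
    simp at h2
  refine ⟨fun i => univ.filter fun u => f u i = some true,
    fun i => univ.filter fun u => f u i = some false, hd, fun u v huv => ?_⟩
  have e : #(univ.filter (fun i : Fin d =>
      (u ∈ (univ.filter fun u : Fin n => f u i = some true) ∧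
        v ∈ (univ.filter fun u : Fin n => f u i = some false)) ∨
      (v ∈ (univ.filter fun u : Fin n => f u i = some true) ∧
        u ∈ (univ.filter fun u : Fin n => f u i = some false)))) = CovAs.conf (f u) (f v) := by
    unfold CovAs.conf
    rw [card_filter]
    refine sum_congr rfl fun i _ => ?_
    simp only [mem_filter, mem_univ, true_and]
    unfold CovAs.cf
    rcases f u i with _ | _ | _ <;> rcases f v i with _ | _ | _ <;> simp
  rw [e]
  exact hf u v huv

/-- Upper bound. -/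
lemma upper (p n k N : ℕ) (hn : n = 2 * (p + 1) + 3) (hk : k + 2 = n)
    (h : HasBipartiteCovering k (n + 1) N) :
    N ≤ 6 * 4 ^ (p + 1) + 3 * bs (2 * (p + 1) + 1) (p + 1) := by
  obtain ⟨W, hN, hdisj, h1, h2⟩ := covering_to_words h
  have hF := fullwords_diam W hdisj _ h2
  obtain ⟨F, hFe⟩ : ∃ F, F = (W.filter (fun w => #w.1 + #w.2 = n + 1)).image Prod.snd := ⟨_, rfl⟩
  rw [← hFe] at hF
  have hF' : ∀ x ∈ F, ∀ y ∈ F, hd x y ≤ 2 * (p + 1) + 1 :=
    fun x hx y hy => (hF x hx y hy).trans (by omega)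
  obtain ⟨T, hT, ε, hε, π, hπ, hc⟩ := choice3 p n hn F hF'
  have hw := words_bound3 (d := n + 1) (by omega) (by omega) W hdisj h1 (fun u hu v hv huv => by
    have := h2 u hu v hv huv; omega) T (by omega) ε (#(F.filter (fun x => #(x ∩ T) % 2 = ε))) hε
    (by rw [hFe]) π (#(F.filter (fun x => #x % 2 = π))) hπ (by rw [hFe])
  rw [hN] at hw
  have hp : 2 ^ (n + 1 - 1) = 8 * 4 ^ (p + 1) := by
    rw [show n + 1 - 1 = 2 * (p + 1) + 3 by omega, pow_add, pow_mul]
    norm_num
    ring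
  rw [hp] at hw
  omega

/-- Lower bound. -/
lemma lower (p : ℕ) : HasBipartiteCovering (2 * p + 3) (2 * p + 6)
    (6 * 4 ^ (p + 1) + 3 * bs (2 * p + 3) (p + 1)) := by
  have h := hasW_to_covering (CovAs.lower p 3)
  have e1 : bs (2 * p + 3) (p + 2) = 4 ^ (p + 1) := bs_half (p + 1)
  have e2 : bs (2 * p + 3) (p + 3) = bs (2 * p + 3) (p + 2) + (2 * p + 3).choose (p + 2) :=
    bs_succ (2 * p + 3) (p + 2)
  have e3 : bs (2 * p + 3) (p + 2) = bs (2 * p + 3) (p + 1) + (2 * p + 3).choose (p + 1) :=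
    bs_succ (2 * p + 3) (p + 1)
  have e4 : (2 * p + 3).choose (p + 2) = (2 * p + 3).choose (p + 1) :=
    Nat.choose_symm_of_eq_add (by omega)
  have e5 : 2 ^ (2 * p + 3) = 2 * 4 ^ (p + 1) := by
    rw [show 2 * p + 3 = 2 * (p + 1) + 1 by ring, pow_succ, pow_mul]
    norm_num
    ring
  have e6 : 2 ^ (2 * p + 3) + ∑ j ∈ range 3, 2 ^ (3 - 1 - j) * bs (2 * p + 3) (p + j + 1) =
      6 * 4 ^ (p + 1) + 3 * bs (2 * p + 3) (p + 1) := by
    simp only [sum_range_succ, sum_range_zero]
    norm_num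
    rw [show p + 1 + 1 = p + 2 by ring, show p + 2 + 1 = p + 3 by ring]
    omega
  rw [e6] at h
  exact h

/-- **Exact value of `n(d-3,d)` for all even `d ≥ 6`.** The largest `n` such that `K_n` has a
bipartite covering of order `d-3` and size `d` is `9 * 2^(d-4) - 3 * C(d-3, d/2-2)`. -/
theorem result (d : ℕ) (hd : 6 ≤ d) (he : Even d) :
    IsGreatest {n | HasBipartiteCovering (d - 3) d n}
      (9 * 2 ^ (d - 4) - 3 * (d - 3).choose (d / 2 - 2)) := by
  obtain ⟨p, rfl⟩ : ∃ p, d = 2 * p + 6 := by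
    obtain ⟨m, hm⟩ := he
    exact ⟨m - 3, by omega⟩
  have e1 : 2 * p + 6 - 3 = 2 * p + 3 := by omega
  have e2 : (2 * p + 6) / 2 - 2 = p + 1 := by omega
  have e3 : 2 ^ (2 * p + 6 - 4) = 4 ^ (p + 1) := by
    rw [show 2 * p + 6 - 4 = 2 * (p + 1) by omega, pow_mul]
    norm_num
  have e4 : bs (2 * p + 3) (p + 1) + (2 * p + 3).choose (p + 1) = 4 ^ (p + 1) := by
    have h1 : bs (2 * p + 3) (p + 2) = 4 ^ (p + 1) := bs_half (p + 1)
    rw [← h1]
    exact (bs_succ (2 * p + 3) (p + 1)).symm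
  have e5 : 9 * 4 ^ (p + 1) - 3 * (2 * p + 3).choose (p + 1) =
      6 * 4 ^ (p + 1) + 3 * bs (2 * p + 3) (p + 1) := by omega
  rw [e1, e2, e3, e5]
  refine ⟨lower p, fun N hN => ?_⟩
  have h := upper p (2 * p + 5) (2 * p + 3) N (by ring) (by ring) hN
  rw [show 2 * (p + 1) + 1 = 2 * p + 3 by ring] at h
  exact h

end Pool.Agent.Results.MP_602efc_co.CodimThree
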