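import Pool.Agent.H.MP_602efc_co.Balls

/-!
# Bipartite coverings of complete graphs: the exact value of `n(d-2, d)` for every `d ≥ 4`
-/

open Finset CodimTwo

namespace Pool.Agent.Results.MP_602efc_co.CodimTwo

/-- `H i` is the complete bipartite subgraph of `K_n` with colour classes `A i` and `B i`
(disjoint, possibly empty). The family `H 0, …, H (d-1)` is a bipartite covering of order `k` and
size `d` of `K_n` if every edge `uv` of `K_n` lies in at least one and at most `k` of the `H i`. -/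
structure IsBipartiteCovering (k d n : ℕ) (A B : Fin d → Finset (Fin n)) : Prop where
  disjoint : ∀ i : Fin d, Disjoint (A i) (B i)
  mult : ∀ u v : Fin n, u ≠ v →
    1 ≤ #(univ.filter (fun i : Fin d => (u ∈ A i ∧ v ∈ B i) ∨ (v ∈ A i ∧ u ∈ B i))) ∧
    #(univ.filter (fun i : Fin d => (u ∈ A i ∧ v ∈ B i) ∨ (v ∈ A i ∧ u ∈ B i))) ≤ k

/-- `K_n` has a bipartite covering of order `k` and size `d`. -/
def HasBipartiteCovering (k d n : ℕ) : Prop :=
  ∃ A B : Fin d → Finset (Fin n), IsBipartiteCovering k d n A B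

lemma covering_to_words {k d N : ℕ} (h : HasBipartiteCovering k d N) :
    ∃ W : Finset (Finset (Fin d) × Finset (Fin d)), #W = N ∧ (∀ w ∈ W, Disjoint w.1 w.2) ∧
      (∀ u ∈ W, ∀ v ∈ W, u ≠ v → 1 ≤ wdist u v) ∧
      (∀ u ∈ W, ∀ v ∈ W, u ≠ v → wdist u v ≤ k) := by
  obtain ⟨A, B, h⟩ := h
  set w : Fin N → Finset (Fin d) × Finset (Fin d) :=
    fun v => (univ.filter (fun i => v ∈ B i), univ.filter (fun i => v ∈ A i)) with hw
  have hdist : ∀ u v : Fin N, wdist (w u) (w v)
      = #(univ.filter (fun i : Fin d => (u ∈ A i ∧ v ∈ B i) ∨ (v ∈ A i ∧ u ∈ B i))) := by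
    intro u v
    unfold wdist
    rw [← card_union_of_disjoint]
    · congr 1
      ext i
      simp only [hw, mem_union, mem_inter, mem_filter, mem_univ, true_and]
      constructor
      · rintro (⟨h1, h2⟩ | ⟨h1, h2⟩)
        · exact Or.inr ⟨h2, h1⟩
        · exact Or.inl ⟨h1, h2⟩
      · rintro (⟨h1, h2⟩ | ⟨h1, h2⟩)
        · exact Or.inr ⟨h1, h2⟩
        · exact Or.inl ⟨h2, h1⟩
    · rw [disjoint_left]
      intro i h1 h2
      simp only [hw, mem_inter, mem_filter, mem_univ, true_and] at h1 h2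
      exact (disjoint_left.mp (h.disjoint i)) h2.1 h1.1
  have hself : ∀ u : Fin N, wdist (w u) (w u) = 0 := by
    intro u
    rw [hdist, card_eq_zero, filter_eq_empty_iff]
    intro i _ hi
    rcases hi with hi | hi
    · exact (disjoint_left.mp (h.disjoint i)) hi.1 hi.2
    · exact (disjoint_left.mp (h.disjoint i)) hi.1 hi.2
  have hinj : Function.Injective w := by
    intro u v huv
    by_contra hne
    have h1 := (h.mult u v hne).1
    rw [← hdist, ← huv, hself] at h1
    omega
  refine ⟨univ.image w, ?_, ?_, ?_, ?_⟩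
  · rw [card_image_of_injective _ hinj, card_univ, Fintype.card_fin]
  · intro x hx
    obtain ⟨u, _, rfl⟩ := mem_image.mp hx
    rw [disjoint_left]
    intro i h1 h2
    simp only [hw, mem_filter, mem_univ, true_and] at h1 h2
    exact (disjoint_left.mp (h.disjoint i)) h2 h1
  · intro x hx y hy hxy
    obtain ⟨u, _, rfl⟩ := mem_image.mp hx
    obtain ⟨v, _, rfl⟩ := mem_image.mp hy
    rw [hdist]
    exact (h.mult u v (fun h => hxy (by rw [h]))).1
  · intro x hx y hy hxy
    obtain ⟨u, _, rfl⟩ := mem_image.mp hx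
    obtain ⟨v, _, rfl⟩ := mem_image.mp hy
    rw [hdist]
    exact (h.mult u v (fun h => hxy (by rw [h]))).2

lemma words_to_covering {ι : Type*} {k d : ℕ} (I : Finset ι)
    (f : ι → Finset (Fin d) × Finset (Fin d)) (hf : ∀ x ∈ I, Disjoint (f x).1 (f x).2)
    (h : ∀ x ∈ I, ∀ y ∈ I, x ≠ y → 1 ≤ wdist (f x) (f y) ∧ wdist (f x) (f y) ≤ k) :
    HasBipartiteCovering k d (#I) := by
  set e := I.equivFin with he
  set g : Fin (#I) → Finset (Fin d) × Finset (Fin d) := fun v => f (e.symm v).1 with hg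
  refine ⟨fun i => univ.filter (fun v => i ∈ (g v).2), fun i => univ.filter (fun v => i ∈ (g v).1),
    ⟨?_, ?_⟩⟩
  · intro i
    rw [disjoint_left]
    intro v h1 h2
    rw [mem_filter] at h1 h2
    exact (disjoint_left.mp (hf _ (e.symm v).2)) h2.2 h1.2
  · intro u v huv
    have hne : (e.symm u).1 ≠ (e.symm v).1 := by
      intro h
      exact huv (e.symm.injective (Subtype.ext h))
    have h1 := h _ (e.symm u).2 _ (e.symm v).2 hne
    have h2 : wdist (f (e.symm u).1) (f (e.symm v).1)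
        = #(univ.filter (fun i : Fin d =>
          (u ∈ univ.filter (fun v => i ∈ (g v).2) ∧ v ∈ univ.filter (fun v => i ∈ (g v).1)) ∨
          (v ∈ univ.filter (fun v => i ∈ (g v).2) ∧ u ∈ univ.filter (fun v => i ∈ (g v).1)))) := by
      unfold wdist
      rw [← card_union_of_disjoint]
      · congr 1
        ext i
        simp only [hg, mem_union, mem_inter, mem_filter, mem_univ, true_and]
        tauto
      · rw [disjoint_left]
        intro i h3 h4
        rw [mem_inter] at h3 h4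
        exact (disjoint_left.mp (hf _ (e.symm u).2)) h3.1 h4.1
    rw [← h2]
    exact h1

lemma fullwords_diam {d : ℕ} (W : Finset (Finset (Fin d) × Finset (Fin d)))
    (hdisj : ∀ w ∈ W, Disjoint w.1 w.2) (k : ℕ)
    (h2 : ∀ u ∈ W, ∀ v ∈ W, u ≠ v → wdist u v ≤ k) :
    ∀ x ∈ (W.filter (fun w => #w.1 + #w.2 = d)).image Prod.snd,
    ∀ y ∈ (W.filter (fun w => #w.1 + #w.2 = d)).image Prod.snd, hd x y ≤ k := by
  intro x hx y hy
  obtain ⟨u, hu, rfl⟩ := mem_image.mp hx
  obtain ⟨v, hv, rfl⟩ := mem_image.mp hy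
  rw [mem_filter] at hu hv
  have full : ∀ w ∈ W, #w.1 + #w.2 = d → w.1 = w.2ᶜ := by
    intro w hw hc
    have h3 := hdisj w hw
    apply eq_of_subset_of_card_le
    · intro a ha
      rw [mem_compl]
      exact (disjoint_left.mp h3) ha
    · rw [card_compl, Fintype.card_fin]; omega
  by_cases huv : u = v
  · rw [huv, hd_self]; omega
  · have h3 := h2 u hu.1 v hv.1 huv
    unfold wdist at h3
    rw [full u hu.1 hu.2, full v hv.1 hv.2] at h3
    have e1 : u.2ᶜ ∩ v.2 = v.2 \ u.2 := by
      ext a; simp only [mem_inter, mem_compl, mem_sdiff]; tauto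
    have e2 : u.2 ∩ v.2ᶜ = u.2 \ v.2 := by
      ext a; simp only [mem_inter, mem_compl, mem_sdiff]
    rw [e1, e2] at h3
    unfold hd
    omega

/-- Upper bound, even dimension. -/
lemma upper_even (q N : ℕ) (h : HasBipartiteCovering (2 * q) (2 * q + 2) N) :
    N ≤ 2 ^ (2 * q + 1) + bs (2 * q) q := by
  obtain ⟨W, hN, hdisj, h1, h2⟩ := covering_to_words h
  obtain ⟨ε, hε, hε2⟩ := even_choice q (2 * q + 2) rfl _ (fullwords_diam W hdisj _ h2)
  have := words_bound (by omega) W hdisj h1 (fun u hu v hv huv => by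
    have := h2 u hu v hv huv; omega) univ (by rw [card_univ, Fintype.card_fin]; omega) ε _ hε2 hε
  rw [hN] at this
  have hp : 2 ^ (2 * q + 2) = 2 * 2 ^ (2 * q + 1) := by ring
  omega

/-- Upper bound, odd dimension. -/
lemma upper_odd (p N : ℕ) (h : HasBipartiteCovering (2 * (p + 1) + 1) (2 * (p + 1) + 3) N) :
    N ≤ 2 ^ (2 * (p + 1) + 2) + 2 * bs (2 * (p + 1)) (p + 1) := by
  obtain ⟨W, hN, hdisj, h1, h2⟩ := covering_to_words h
  obtain ⟨T, hT, ε, hε, hε2⟩ := odd_choice p (2 * (p + 1) + 2) rfl _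
    (fullwords_diam W hdisj _ h2)
  have := words_bound (by omega) W hdisj h1 (fun u hu v hv huv => by
    have := h2 u hu v hv huv; omega) T (by omega) ε _ hε2 hε
  rw [hN] at this
  have hp : 2 ^ (2 * (p + 1) + 3) = 2 * 2 ^ (2 * (p + 1) + 2) := by ring
  omega

/-- Lower bound from an auxiliary family. -/
lemma lower_general (d : ℕ) (hd4 : 4 ≤ d) (c : ℕ)
    (hS : ∀ R : Finset (Fin d), #R + 2 = d → ∀ r ∈ R, ∃ S : Finset (Finset (Fin d)),
      (∀ s ∈ S, s ⊆ R) ∧ (∀ s ∈ S, ∀ s' ∈ S, hd s s' + 2 ≤ #R) ∧ #S = c) :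
    HasBipartiteCovering (d - 2) d (2 * 2 ^ (d - 2) + c) := by
  set a : Fin d := ⟨0, by omega⟩ with ha
  set b : Fin d := ⟨1, by omega⟩ with hb
  set r : Fin d := ⟨2, by omega⟩ with hr
  have hab : a ≠ b := by rw [ha, hb]; simp
  have hra : r ≠ a := by rw [hr, ha]; simp
  have hrb : r ≠ b := by rw [hr, hb]; simp
  set R : Finset (Fin d) := (univ.erase a).erase b with hR
  have hbm : b ∈ (univ : Finset (Fin d)).erase a := mem_erase.mpr ⟨hab.symm, mem_univ b⟩
  have hRc : #R + 2 = d := by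
    rw [hR, card_erase_of_mem hbm, card_erase_of_mem (mem_univ a), card_univ, Fintype.card_fin]
    omega
  have haR : a ∉ R := by
    rw [hR, mem_erase, mem_erase]; tauto
  have hbR : b ∉ R := by
    rw [hR]; exact notMem_erase b _
  have hrR : r ∈ R := by
    rw [hR, mem_erase, mem_erase]; exact ⟨hrb, hra, mem_univ r⟩
  obtain ⟨S, hSR, hSd, hSc⟩ := hS R hRc r hrR
  have hcount := card_over (r := r) hab (by omega) hSR
    (fun s hs s' hs' => by have := hSd s hs s' hs'; omega)
  have hI : #(R.powerset.sigma (fun y => ovr R S a b r y)) = 2 * 2 ^ (d - 2) + c := by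
    rw [card_sigma, hcount, hSc, show #R = d - 2 by omega]
  rw [← hI]
  apply words_to_covering _ (fun x => wd R x.1 x.2)
  · intro x hx
    rw [mem_sigma, mem_powerset] at hx
    have o := over_sub hx.2 hab
    have out : ∀ s : Finset (Fin d), s ⊆ {a, b} → ∀ x ∈ s, x ∉ R := by
      intro s hs x hx
      have := hs hx
      rw [mem_insert, mem_singleton] at this
      rcases this with rfl | rfl
      · exact haR
      · exact hbR
    unfold wd
    rw [disjoint_left]
    intro z hz hz'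
    rw [mem_union] at hz
    simp only at hz'
    rw [mem_union, mem_sdiff] at hz'
    rcases hz with hz | hz <;> rcases hz' with hz' | hz'
    · exact hz'.2 hz
    · exact out _ o.2.1 z hz' (hx.1 hz)
    · exact out _ o.1 z hz hz'.1
    · exact (disjoint_left.mp o.2.2) hz hz'
  · intro x hx y hy hxy
    rw [mem_sigma, mem_powerset] at hx hy
    refine construction hd4 hRc haR hbR hab hrR hSR
      (fun s hs s' hs' => by have := hSd s hs s' hs'; omega) hx.1 hy.1 hx.2 hy.2 ?_
    rintro ⟨h1, h2⟩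
    apply hxy
    obtain ⟨x1, x2⟩ := x
    obtain ⟨y1, y2⟩ := y
    simp only at h1 h2
    subst h1; subst h2
    rfl

theorem both_parities (q : ℕ) (hq : 1 ≤ q) :
    IsGreatest {n | HasBipartiteCovering (2 * q) (2 * q + 2) n}
      (2 ^ (2 * q + 1) + ∑ i ∈ range q, (2 * q).choose i) ∧
    IsGreatest {n | HasBipartiteCovering (2 * q + 1) (2 * q + 3) n}
      (2 ^ (2 * q + 2) + 2 * ∑ i ∈ range q, (2 * q).choose i) := by
  obtain ⟨p, rfl⟩ : ∃ p, q = p + 1 := ⟨q - 1, by omega⟩
  refine ⟨⟨?_, ?_⟩, ⟨?_, ?_⟩⟩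
  · have := lower_general (2 * (p + 1) + 2) (by omega) (bs (2 * (p + 1)) (p + 1))
      (fun R hR r hr => exists_ball_even R (p + 1) (by omega) (by omega))
    rw [show 2 * (p + 1) + 2 - 2 = 2 * (p + 1) by omega] at this
    rw [Set.mem_ofPred_eq, show 2 ^ (2 * (p + 1) + 1) = 2 * 2 ^ (2 * (p + 1)) by ring]
    exact this
  · intro N hN
    exact upper_even (p + 1) N hN
  · have := lower_general (2 * (p + 1) + 3) (by omega) (2 * bs (2 * (p + 1)) (p + 1))
      (fun R hR r hr => exists_ball_odd R (p + 1) (by omega) (by omega) r hr)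
    rw [show 2 * (p + 1) + 3 - 2 = 2 * (p + 1) + 1 by omega] at this
    rw [Set.mem_ofPred_eq, show 2 ^ (2 * (p + 1) + 2) = 2 * 2 ^ (2 * (p + 1) + 1) by ring]
    exact this
  · intro N hN
    exact upper_odd p N hN

/-- The number `K(m, m-2)`: `∑_{i < m/2} C(m,i)` for even `m` and
`2 ∑_{i < (m-1)/2} C(m-1,i)` for odd `m`. -/
def kleitman (m : ℕ) : ℕ :=
  if Even m then ∑ i ∈ range (m / 2), m.choose i
  else 2 * ∑ i ∈ range ((m - 1) / 2), (m - 1).choose i

/-- **Exact value of `n(d-2,d)` for all `d ≥ 4`.** The largest `n` such that `K_n` has a bipartite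
covering of order `d-2` and size `d` is `2^(d-1) + kleitman (d-2)`. -/
theorem result (d : ℕ) (hd : 4 ≤ d) :
    IsGreatest {n | HasBipartiteCovering (d - 2) d n} (2 ^ (d - 1) + kleitman (d - 2)) := by
  rcases Nat.even_or_odd' d with ⟨e, he | he⟩
  · obtain ⟨q, rfl⟩ : ∃ q, e = q + 1 := ⟨e - 1, by omega⟩
    have h := (both_parities q (by omega)).1
    have h1 : d - 2 = 2 * q := by omega
    have h2 : d - 1 = 2 * q + 1 := by omega
    have h3 : d = 2 * q + 2 := by omega
    have h4 : kleitman (2 * q) = ∑ i ∈ range q, (2 * q).choose i := by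
      unfold kleitman
      rw [if_pos (even_two_mul q), Nat.mul_div_cancel_left q (by norm_num)]
    rw [h1, h2, h4, h3]
    exact h
  · obtain ⟨q, rfl⟩ : ∃ q, e = q + 1 := ⟨e - 1, by omega⟩
    have h := (both_parities q (by omega)).2
    have h1 : d - 2 = 2 * q + 1 := by omega
    have h2 : d - 1 = 2 * q + 2 := by omega
    have h3 : d = 2 * q + 3 := by omega
    have h4 : kleitman (2 * q + 1) = 2 * ∑ i ∈ range q, (2 * q).choose i := by
      unfold kleitman
      rw [if_neg (by rw [Nat.not_even_iff_odd]; exact odd_two_mul_add_one q),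
        Nat.add_sub_cancel, Nat.mul_div_cancel_left q (by norm_num)]
    rw [h1, h2, h4, h3]
    exact h

end Pool.Agent.Results.MP_602efc_co.CodimTwo
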