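import Pool.Agent.H.MP_602efc_co.As.Fi3

/-!
# Asymptotics of `n(k,d)` for `k` near `d`

`n(k,d)` compared with Kleitman's number `K(d,k)`: asymptotic equality with `(1 + 2^(k-d)) K(d,k)`,
uniformly for `d - k = o(d)`; the second term for fixed `d - k`; the order of magnitude for all
`k ≥ (2/3 + ε) d`.
-/

open Finset Filter Topology

namespace Pool.Agent.Results.MP_602efc_co.NearKleitman

/-- `H i` is the complete bipartite subgraph of `K_n` with colour classes `A i` and `B i`
(disjoint, possibly empty). The family `H 0, …, H (d-1)` is a bipartite covering of order `k` and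
size `d` of `K_n` if every edge `uv` of `K_n` lies in at least one and at most `k` of the `H i`. -/
structure IsBipartiteCovering (k d n : ℕ) (A B : Fin d → Finset (Fin n)) : Prop where
  disjoint : ∀ i : Fin d, Disjoint (A i) (B i)
  mult : ∀ u v : Fin n, u ≠ v →
    1 ≤ #(univ.filter (fun i : Fin d => (u ∈ A i ∧ v ∈ B i) ∨ (v ∈ A i ∧ u ∈ B i))) ∧
    #(univ.filter (fun i : Fin d => (u ∈ A i ∧ v ∈ B i) ∨ (v ∈ A i ∧ u ∈ B i))) ≤ k

/-- `K_n` has a bipartite covering of order `k` and size `d`. -/
def HasBipartiteCovering (k d n : ℕ) : Prop :=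
  ∃ A B : Fin d → Finset (Fin n), IsBipartiteCovering k d n A B

/-- `n(k,d)`: the largest `n` such that `K_n` has a bipartite covering of order `k` and size `d`. -/
noncomputable def maxN (k d : ℕ) : ℕ := sSup {n | HasBipartiteCovering k d n}

/-- Kleitman's number `K(d,D)`: `∑_{i ≤ D/2} C(d,i)` for even `D`, and
`2 ∑_{i ≤ (D-1)/2} C(d-1,i)` for odd `D`. -/
def kleitman (d D : ℕ) : ℕ :=
  if Even D then ∑ i ∈ range (D / 2 + 1), d.choose i
  else 2 * ∑ i ∈ range (D / 2 + 1), (d - 1).choose i

lemma kleitman_eq (d D : ℕ) : kleitman d D = CovAs.gK d D := by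
  unfold kleitman CovAs.gK CodimTwo.bs
  by_cases h : Even D
  · rw [if_pos h, if_pos (Nat.even_iff.1 h)]
  · rw [if_neg h, if_neg (fun h' => h (Nat.even_iff.2 h'))]

lemma conf_eq {k d n : ℕ} {A B : Fin d → Finset (Fin n)} (h : IsBipartiteCovering k d n A B)
    (u v : Fin n) :
    CovAs.conf (fun i => if u ∈ A i then some true else if u ∈ B i then some false else none)
      (fun i => if v ∈ A i then some true else if v ∈ B i then some false else none) =
    #(univ.filter (fun i : Fin d => (u ∈ A i ∧ v ∈ B i) ∨ (v ∈ A i ∧ u ∈ B i))) := by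
  unfold CovAs.conf
  rw [card_filter]
  refine sum_congr rfl fun i _ => ?_
  have hu : u ∈ A i → u ∉ B i := fun h1 h2 => (disjoint_left.mp (h.disjoint i)) h1 h2
  have hv : v ∈ A i → v ∉ B i := fun h1 h2 => (disjoint_left.mp (h.disjoint i)) h1 h2
  unfold CovAs.cf
  by_cases h1 : u ∈ A i <;> by_cases h2 : u ∈ B i <;> by_cases h3 : v ∈ A i <;>
    by_cases h4 : v ∈ B i <;> simp_all

lemma covering_iff (k d n : ℕ) : HasBipartiteCovering k d n ↔ CovAs.HasW k d n := by
  constructor
  · rintro ⟨A, B, h⟩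
    refine ⟨fun u i => if u ∈ A i then some true else if u ∈ B i then some false else none,
      fun u v huv => ?_⟩
    rw [conf_eq h]
    exact h.mult u v huv
  · rintro ⟨f, hf⟩
    have hd : ∀ i : Fin d, Disjoint (univ.filter fun u : Fin n => f u i = some true)
        (univ.filter fun u : Fin n => f u i = some false) := by
      intro i
      rw [disjoint_left]
      intro u h1 h2
      rw [mem_filter] at h1 h2
      rw [h1.2] at h2
      simp at h2
    refine ⟨fun i => univ.filter fun u => f u i = some true,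
      fun i => univ.filter fun u => f u i = some false, hd, fun u v huv => ?_⟩
    have e : #(univ.filter (fun i : Fin d =>
        (u ∈ (univ.filter fun u : Fin n => f u i = some true) ∧
          v ∈ (univ.filter fun u : Fin n => f u i = some false)) ∨
        (v ∈ (univ.filter fun u : Fin n => f u i = some true) ∧
          u ∈ (univ.filter fun u : Fin n => f u i = some false)))) = CovAs.conf (f u) (f v) := by
      unfold CovAs.conf
      rw [card_filter]
      refine sum_congr rfl fun i _ => ?_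
      simp only [mem_filter, mem_univ, true_and]
      unfold CovAs.cf
      rcases f u i with _ | _ | _ <;> rcases f v i with _ | _ | _ <;> simp
    rw [e]
    exact hf u v huv

lemma maxN_eq (k d : ℕ) : maxN k d = CovAs.mx k d := by
  unfold maxN CovAs.mx
  congr 1
  ext n
  exact covering_iff k d n

/-- **`n(k,d)` and Kleitman's number.** -/
theorem result :
    (∀ k d : ℕ, IsGreatest {n | HasBipartiteCovering k d n} (maxN k d)) ∧
    (∀ ε : ℝ, 0 < ε → ∃ δ : ℝ, 0 < δ ∧ ∃ d₀ : ℕ, ∀ d : ℕ, d₀ ≤ d → ∀ k : ℕ, k < d →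
      (1 - δ) * d ≤ k →
      |(maxN k d : ℝ) - (1 + 1 / 2 ^ (d - k)) * kleitman d k| ≤ ε * kleitman d k) ∧
    (∀ t : ℕ, 1 ≤ t → Tendsto (fun d : ℕ =>
      ((1 + 1 / 2 ^ t) * 2 ^ d / 2 - (maxN (d - t) d : ℝ)) / (d.choose (d / 2) : ℝ)) atTop
      (𝓝 (((t : ℝ) - 3 + (t + 3) / 2 ^ t) / 2))) ∧
    (∀ k d : ℕ, k < d → 2 * d < 3 * k + 2 →
      (kleitman d k : ℝ) ≤ maxN k d ∧
      (maxN k d : ℝ) ≤
        (1 + 1 / 2 ^ (d - k) + (2 * (d : ℝ) - k) / (3 * (k : ℝ) + 2 - 2 * d)) *
          kleitman d k) := by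
  simp only [kleitman_eq, maxN_eq]
  refine ⟨fun k d => ?_, fun ε hε => ?_, fun t ht => ?_, fun k d hk h3 => CovAs.part3 hk h3⟩
  · have h := CovAs.mx_greatest k d
    have e : {n | HasBipartiteCovering k d n} = {n | CovAs.HasW k d n} := by
      ext n
      exact covering_iff k d n
    rw [e]
    exact h
  · obtain ⟨δ, hδ, d₀, h⟩ := CovAs.part2 hε
    exact ⟨δ, hδ, d₀, fun d hd k hk hkd => h d hd k hkd hk⟩
  · exact CovAs.part1 t ht

end Pool.Agent.Results.MP_602efc_co.NearKleitman
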